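import Pool.Agent.Lib.SlopeB.GrM

/-!
# MP_6febbd_ag: twelve `L` minus `D` has no base points along the graph boundary, for all `g`

Let `G` be a finite directed multigraph (loops, multiple edges and bridges allowed) with edges
`E`, let `κ 0, …, κ (b-1)` be an integral basis of its lattice of integral circulations, and
let `c_e = (κ 0 e, …, κ (b-1) e, 0, …, 0)`. Let `τ₀` be a symmetric complex matrix of size
`b + g'` whose lower right block of size `g'` is in the Siegel space. Then there are `m ≥ 1`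
and a Siegel modular form `F` of genus `b + g'`, weight `12 m`, level one, vanishing to order at
least `m` along the boundary, such that

`F (τ + ∑ t_e c_e c_eᵀ) exp(-2 π i m ∑ t_e)` (second sum over the edges which are not bridges)

tends to a nonzero limit when `τ → τ₀` and all `Im t_e → ∞`.
-/

set_option autoImplicit false

open scoped Matrix.Norms.Elementwise Real
open Complex Matrix MP6feb SlopeB

open Classical in
theorem Pool.Agent.Results.MP_6febbd_ag.SlopeTwelveBar.result
    {V E : Type} [Fintype V] [DecidableEq V] [Fintype E] (src tgt : E → V) {b g' : ℕ}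
    (κ : Fin b → E → ℤ) (hκ : LinearIndependent ℤ κ)
    (hspan : ∀ z : E → ℤ, IsCirc src tgt z ↔ z ∈ Submodule.span ℤ (Set.range κ))
    (τ₀ : Matrix (Fin (b + g')) (Fin (b + g')) ℂ) (hsymm : τ₀.IsSymm)
    (hτ₂ : τ₀.submatrix (Fin.natAdd b) (Fin.natAdd b) ∈ Siegel g') :
    ∃ (m : ℕ) (F : Matrix (Fin (b + g')) (Fin (b + g')) ℂ → ℂ) (ℓ : ℂ), 1 ≤ m ∧
      IsSiegelForm (b + g') (12 * m) F ∧ VanishesAtBoundary (b + g') m F ∧ ℓ ≠ 0 ∧
      ∀ ε : ℝ, 0 < ε → ∃ δ : ℝ, 0 < δ ∧ ∃ T : ℝ,
        ∀ τ : Matrix (Fin (b + g')) (Fin (b + g')) ℂ, τ.IsSymm → ‖τ - τ₀‖ < δ →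
        ∀ t : E → ℂ, (∀ e, T < (t e).im) →
          τ + cone (fun e => Fin.append (fun i => κ i e) (fun _ : Fin g' => (0 : ℤ))) t ∈
            Siegel (b + g') ∧
          ‖F (τ + cone (fun e => Fin.append (fun i => κ i e) (fun _ : Fin g' => (0 : ℤ))) t) *
            cexp (-(2 * π * I * (m : ℂ) *
              ∑ e ∈ Finset.univ.filter (fun e => ∃ z, IsCirc src tgt z ∧ z e ≠ 0), t e)) -
            ℓ‖ < ε :=
  graph_main src tgt κ hκ hspan τ₀ hsymm hτ₂
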